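import Pool.Agent.MP_246c79_co.H75.Main

set_option autoImplicit false

universe u

namespace Pool.Agent.MP_246c79_co.H75

theorem core :
    ∀ (L : Type u) [CompleteLattice L] [IsAtomistic L] [IsUpperModularLattice L] [Infinite L]
      (r : ℕ), Order.height (⊤ : L) = (r : ℕ∞) →
      ∃ M : Set (Set L),
        (∀ m ∈ M,
          (∀ x ∈ m, x ≠ ⊥ ∧ x ≠ ⊤) ∧ IsChain (· ≤ ·) m ∧
          ∀ m' : Set L, (∀ x ∈ m', x ≠ ⊥ ∧ x ≠ ⊤) → IsChain (· ≤ ·) m' → m ⊆ m' → m' = m) ∧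
        M.PairwiseDisjoint id ∧
        ∀ x : L, IsAtom x → ∃ m ∈ M, x ∈ m := by
  intro L _ _ _ _ r hr
  classical
  obtain ⟨ρ, hρ, hρr⟩ := exists_isRank (L := L) r hr
  have hmid : ∃ x : L, x ≠ ⊥ ∧ x ≠ ⊤ := by
    obtain ⟨x, -, hx⟩ := (Set.infinite_univ (α := L)).exists_notMem_finite
      ((Set.finite_singleton (⊤ : L)).insert ⊥)
    simp only [Set.mem_insert_iff, Set.mem_singleton_iff, not_or] at hx
    exact ⟨x, hx⟩
  obtain ⟨x₀, hx₀, hx₁⟩ := hmid
  have h1 := hρ.lt (bot_lt_iff_ne_bot.mpr hx₀)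
  have h2 := hρ.lt (lt_top_iff_ne_top.mpr hx₁)
  obtain ⟨m, hm⟩ : ∃ m, ρ ⊤ = ρ ⊥ + m + 1 := ⟨ρ ⊤ - ρ ⊥ - 1, by omega⟩
  have hm1 : 1 ≤ m := by omega
  have hA : ∀ x ∈ {x : L | IsAtom x}, (⊥ : L) ⋖ x := fun x hx => bot_covBy_iff.mpr hx
  have htop : (⊥ : L) ⊔ sSup {x : L | IsAtom x} = ⊤ := by
    rw [bot_sup_eq, sSup_atoms_eq_top]
  obtain ⟨c, hc1, hc2⟩ := good_all hρ hρr m _ ⊥ {x : L | IsAtom x} rfl
    hA (by rw [htop]; exact hm)
  have hrk : ∀ x, IsAtom x → ∀ i, i < m → ρ (c x i) = ρ ⊥ + 1 + i := by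
    intro x hx i
    induction i with
    | zero =>
      intro _
      rw [(hc1 x hx).zero]
      exact hρ.cov (hA x hx)
    | succ i ih =>
      intro hi
      have := hρ.cov ((hc1 x hx).cov i hi)
      have := ih (by omega)
      omega
  have hmono : ∀ x, IsAtom x → ∀ i j, i ≤ j → j < m → c x i ≤ c x j := by
    intro x hx i j hij
    induction j, hij using Nat.le_induction with
    | base => intro _; exact le_rfl
    | succ j _ ih =>
      intro hj
      exact (ih (by omega)).trans ((hc1 x hx).cov j hj).le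
  refine ⟨(fun x => c x '' Set.Iio m) '' {x : L | IsAtom x}, ?_, ?_, ?_⟩
  · rintro _ ⟨x, hx, rfl⟩
    refine ⟨?_, ?_, ?_⟩
    · rintro _ ⟨i, hi, rfl⟩
      have h3 := hrk x hx i hi
      have hi' : i < m := hi
      constructor
      · intro h
        rw [h] at h3
        omega
      · intro h
        rw [h] at h3
        omega
    · rintro _ ⟨i, hi, rfl⟩ _ ⟨j, hj, rfl⟩ _
      rcases le_total i j with h | h
      · exact Or.inl (hmono x hx i j h hj)
      · exact Or.inr (hmono x hx j i h hi)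
    · intro m' hm' hch hsub
      apply Set.Subset.antisymm _ hsub
      intro z hz
      have h3 := hρ.lt (bot_lt_iff_ne_bot.mpr (hm' z hz).1)
      have h4 := hρ.lt (lt_top_iff_ne_top.mpr (hm' z hz).2)
      have hi : ρ z - ρ ⊥ - 1 < m := by omega
      have h5 := hrk x hx _ hi
      refine ⟨ρ z - ρ ⊥ - 1, hi, ?_⟩
      have hmem : c x (ρ z - ρ ⊥ - 1) ∈ m' := hsub ⟨_, hi, rfl⟩
      by_contra hne
      rcases hch hmem hz hne with h | h
      · exact hne (hρ.eq_of_le h (by omega))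
      · exact hne (hρ.eq_of_le h (by omega)).symm
  · rintro _ ⟨x, hx, rfl⟩ _ ⟨y, hy, rfl⟩ hne
    refine Set.disjoint_left.mpr ?_
    rintro _ ⟨i, hi, rfl⟩ ⟨j, hj, h⟩
    have h3 := hrk x hx i hi
    have h4 := hrk y hy j hj
    have hij : j = i := by
      rw [h] at h4
      omega
    subst hij
    exact hne (by rw [hc2 y hy x hx j hj h])
  · intro x hx
    exact ⟨_, ⟨x, hx, rfl⟩, 0, hm1, (hc1 x hx).zero⟩

end Pool.Agent.MP_246c79_co.H75
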