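import Pool.Agent.MP_246c79_co.H75.Finite

set_option autoImplicit false

universe u

namespace Pool.Agent.MP_246c79_co.H75

open Cardinal

variable {L : Type u} [CompleteLattice L]

theorem good_of_le_one {a : L} {A : Set L} (hA : ∀ x ∈ A, a ⋖ x) {m : ℕ} (hm : m ≤ 1) :
    Good a A m := by
  refine ⟨fun x _ => x, fun x hx => ⟨rfl, fun i hi => by omega, fun i _ => ?_⟩,
    fun x _ y _ i _ h => h⟩
  exact mem_Fl_of_mem hx (hA x hx).le

/-- Case 1: at most one point lies on fewer than `#A` lines -/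
theorem good_case_one [IsUpperModularLattice L] {ρ : L → ℕ} (hρ : IsRank ρ) {a : L} {A : Set L}
    (hA : ∀ x ∈ A, a ⋖ x) {m : ℕ} (hm : 1 ≤ m) (hinf : ℵ₀ ≤ #A)
    (hIH : ∀ p ∈ A, Good p (Con A p) m)
    (hone : ∀ p ∈ A, ∀ q ∈ A, #(Con A p) < #A → #(Con A q) < #A → p = q) :
    Good a A (m + 1) := by
  classical
  choose c hc1 hc2 using hIH
  have hAinf : A.Infinite := Set.infinite_coe_iff.mp (aleph0_le_mk_iff.mp hinf)
  obtain ⟨y, hy⟩ := greedy' (I := A) (β := ℕ × L) (fun p => Con A p.1)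
    (fun p z => (fun k => (k, c p.1 p.2 z.1 k)) '' Set.Iio m) #A hinf le_rfl m
    (fun p z => by
      rw [← Finset.coe_range, ← Finset.coe_image, Finset.coe_sort_coe, mk_coe_finset]
      exact_mod_cast Finset.card_image_le.trans (Finset.card_range m).le)
    (fun p z z' b hb hb' => by
      obtain ⟨k, hk, rfl⟩ := hb
      obtain ⟨k', hk', h⟩ := hb'
      simp only [Prod.mk.injEq] at h
      obtain ⟨rfl, h⟩ := h
      exact Subtype.ext (hc2 p.1 p.2 z.1 z.2 z'.1 z'.2 k' hk h.symm))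
    (fun p => by
      obtain ⟨x, hx, hxp⟩ := hAinf.exists_notMem_finite (Set.finite_singleton p.1)
      exact ⟨⟨p.1 ⊔ x, x, ⟨hx, hxp⟩, rfl⟩⟩)
    (fun p q hp hq => Subtype.ext (hone p.1 p.2 q.1 q.2 hp hq))
  let e : L → ℕ → L := fun x i =>
    if h : x ∈ A then (Nat.casesOn i x fun k => c x h (y ⟨x, h⟩).1 k) else x
  have e0 : ∀ x, x ∈ A → e x 0 = x := fun x hx => by simp [e, hx]
  have e1 : ∀ x (hx : x ∈ A) k, e x (k + 1) = c x hx (y ⟨x, hx⟩).1 k := fun x hx k => by
    simp [e, hx]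
  refine ⟨e, fun x hx => ⟨e0 x hx, fun i hi => ?_, fun i hi => ?_⟩, ?_⟩
  · have hch := hc1 x hx _ (y ⟨x, hx⟩).2
    cases i with
    | zero =>
      rw [e0 x hx, e1 x hx, hch.zero]
      exact covBy_Con hA hx _ (y ⟨x, hx⟩).2
    | succ k =>
      rw [e1 x hx, e1 x hx]
      exact hch.cov k (by omega)
  · have hch := hc1 x hx _ (y ⟨x, hx⟩).2
    cases i with
    | zero => rw [e0 x hx]; exact mem_Fl_of_mem hx (hA x hx).le
    | succ k =>
      rw [e1 x hx]
      exact Fl_Con hx (hA x hx).le (hch.mem k (by omega))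
  · intro x hx x' hx' i hi h
    cases i with
    | zero => rwa [e0 x hx, e0 x' hx'] at h
    | succ k =>
      rw [e1 x hx, e1 x' hx'] at h
      have := hy ⟨x, hx⟩ ⟨x', hx'⟩ (k, c x hx (y ⟨x, hx⟩).1 k) ⟨k, by simp; omega, rfl⟩
        ⟨k, by simp; omega, by simp [h]⟩
      exact congrArg Subtype.val this

theorem sup_eq_line [IsUpperModularLattice L] {ρ : L → ℕ} (hρ : IsRank ρ) {a l x y : L}
    (hl : ρ l = ρ a + 2) (hx : a ⋖ x) (hy : a ⋖ y) (hne : x ≠ y) (hxl : x ≤ l) (hyl : y ≤ l) :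
    x ⊔ y = l := by
  have h1 := hρ.cov (covBy_sup hy hx.le (not_le_of_covBy_ne hy hx hne.symm))
  have h2 := hρ.cov hx
  exact hρ.eq_of_le (sup_le hxl hyl) (by omega)

theorem rank_line [IsUpperModularLattice L] {ρ : L → ℕ} (hρ : IsRank ρ) {a x y : L}
    (hx : a ⋖ x) (hy : a ⋖ y) (hne : x ≠ y) : ρ (x ⊔ y) = ρ a + 2 := by
  have h1 := hρ.cov (covBy_sup hy hx.le (not_le_of_covBy_ne hy hx hne.symm))
  have h2 := hρ.cov hx
  omega

/-- a flag complementary to the line `l` -/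
theorem exists_flag [IsUpperModularLattice L] {ρ : L → ℕ} (hρ : IsRank ρ) {a l : L} {A : Set L}
    (hA : ∀ x ∈ A, a ⋖ x) (hal : a ≤ l) (hl : ρ l = ρ a + 2) {m : ℕ}
    (hr : ρ (a ⊔ sSup A) = ρ a + m + 1) :
    ∀ k, k < m → ∃ e : ℕ → L, e 0 = a ∧ (∀ i, i ≤ k → ρ (l ⊔ e i) = ρ a + 2 + i) ∧
      ∀ i, i < k → ∃ b ∈ A, e (i + 1) = e i ⊔ b ∧ ¬ b ≤ l ⊔ e i := by
  intro k
  induction k with
  | zero =>
    intro _
    refine ⟨fun _ => a, rfl, fun i hi => ?_, fun i hi => by omega⟩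
    rw [sup_eq_left.mpr hal]; omega
  | succ k ih =>
    intro hk
    obtain ⟨e, he0, he1, he2⟩ := ih (by omega)
    have h1 : ¬ a ⊔ sSup A ≤ l ⊔ e k := fun h => by
      have := hρ.le h
      have := he1 k le_rfl
      omega
    obtain ⟨b, hb, -, hbn⟩ := exists_not_le_of_mem_Fl (top_mem_Fl a A) (le_sup_of_le_left hal) h1
    refine ⟨fun i => if i = k + 1 then e k ⊔ b else e i, by simpa using he0, fun i hi => ?_,
      fun i hi => ?_⟩
    · by_cases hik : i = k + 1
      · simp only [if_pos hik]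
        have h2 := hρ.cov (covBy_sup (hA b hb) (le_sup_of_le_left hal) hbn)
        have := he1 k le_rfl
        rw [← sup_assoc]
        omega
      · simp only [if_neg hik]
        exact he1 i (by omega)
    · have hi1 : ¬ (i = k + 1) := by omega
      by_cases hik : i = k
      · subst hik
        simp only [if_neg hi1, if_true]
        exact ⟨b, hb, rfl, hbn⟩
      · have hi2 : ¬ (i + 1 = k + 1) := by omega
        simp only [if_neg hi1, if_neg hi2]
        exact he2 i (by omega)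

/-- Case 2: two points lie on fewer than `#A` lines -/
theorem good_case_two [IsUpperModularLattice L] {ρ : L → ℕ} (hρ : IsRank ρ) {r : ℕ}
    (hρr : ∀ x, ρ x ≤ r) {a : L} {A : Set L}
    (hA : ∀ x ∈ A, a ⋖ x) {m : ℕ} (hm : 1 ≤ m) (hr : ρ (a ⊔ sSup A) = ρ a + m + 1)
    (hinf : ℵ₀ ≤ #A)
    (hIH : ∀ B : Set L, B ⊆ A → #B < #A → a ⊔ sSup B = a ⊔ sSup A → Good a B m)
    {p q : L} (hp : p ∈ A) (hq : q ∈ A) (hpq : p ≠ q) (hp' : #(Con A p) < #A)
    (hq' : #(Con A q) < #A) : Good a A m := by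
  classical
  set l : L := p ⊔ q with hl_def
  have hl : ρ l = ρ a + 2 := rank_line hρ (hA p hp) (hA q hq) hpq
  have hal : a ≤ l := le_sup_of_le_left (hA p hp).le
  have hline : ∀ x ∈ A, ∀ y ∈ A, x ≠ y → x ≤ l → y ≤ l → ∀ G, x ≤ G → y ≤ G → l ≤ G := by
    intro x hx y hy hne hxl hyl G hxG hyG
    rw [← sup_eq_line hρ hl (hA x hx) (hA y hy) hne hxl hyl]
    exact sup_le hxG hyG
  let Y : Set L := {x | x ∈ A ∧ ¬ x ≤ l}
  have hY : #Y < #A := by
    have hYp : ∀ x : Y, p ⊔ x.1 ∈ Con A p := fun x =>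
      ⟨x.1, ⟨x.2.1, fun h => x.2.2 (by rw [show x.1 = p from h]; exact le_sup_left)⟩, rfl⟩
    have hYq : ∀ x : Y, q ⊔ x.1 ∈ Con A q := fun x =>
      ⟨x.1, ⟨x.2.1, fun h => x.2.2 (by rw [show x.1 = q from h]; exact le_sup_right)⟩, rfl⟩
    let f : Y → Con A p × Con A q := fun x => (⟨_, hYp x⟩, ⟨_, hYq x⟩)
    have hf : Function.Injective f := by
      intro x y h
      simp only [f, Prod.mk.injEq, Subtype.mk.injEq] at h
      obtain ⟨h1, h2⟩ := h
      by_contra hne
      have hne' : x.1 ≠ y.1 := fun h => hne (Subtype.ext h)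
      have hxp : p ≠ x.1 := fun h => x.2.2 (by rw [← h]; exact le_sup_left)
      have hxq : q ≠ x.1 := fun h => x.2.2 (by rw [← h]; exact le_sup_right)
      have e1 : x.1 ⊔ y.1 = p ⊔ x.1 := sup_eq_line hρ
        (rank_line hρ (hA p hp) (hA _ x.2.1) hxp) (hA _ x.2.1) (hA _ y.2.1) hne' le_sup_right
        (h1 ▸ le_sup_right)
      have e2 : x.1 ⊔ y.1 = q ⊔ x.1 := sup_eq_line hρ
        (rank_line hρ (hA q hq) (hA _ x.2.1) hxq) (hA _ x.2.1) (hA _ y.2.1) hne' le_sup_right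
        (h2 ▸ le_sup_right)
      have e3 : l = x.1 ⊔ y.1 := by
        apply sup_eq_line hρ (rank_line hρ (hA _ x.2.1) (hA _ y.2.1) hne') (hA p hp) (hA q hq) hpq
        · rw [e1]; exact le_sup_left
        · rw [e2]; exact le_sup_left
      exact x.2.2 (e3 ▸ le_sup_left)
    refine lt_of_le_of_lt (mk_le_of_injective hf) ?_
    rw [mk_prod, lift_id, lift_id]
    exact mul_lt_of_lt hinf hp' hq'
  let X : Set L := {x | x ∈ A ∧ x ≤ l ∧ ∃ G ∈ Fl a Y, x ≤ G ∧ ¬ l ≤ G}
  have hX : #X < #A := by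
    have hch : ∀ x : X, ∃ G : Fl a Y, x.1 ≤ G.1 ∧ ¬ l ≤ G.1 := fun x => by
      obtain ⟨G, hG, h1, h2⟩ := x.2.2.2
      exact ⟨⟨G, hG⟩, h1, h2⟩
    choose f hf1 hf2 using hch
    have hf : Function.Injective f := by
      intro x y h
      by_contra hne
      have hne' : x.1 ≠ y.1 := fun h => hne (Subtype.ext h)
      exact hf2 x (hline _ x.2.1 _ y.2.1 hne' x.2.2.1 y.2.2.1 _ (hf1 x) (h ▸ hf1 y))
    exact lt_of_le_of_lt (mk_le_of_injective hf) (mk_Fl_lt hρ hρr hinf hY)
  let B : Set L := insert p (insert q (X ∪ Y))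
  have hBA : B ⊆ A := by
    refine Set.insert_subset hp (Set.insert_subset hq (Set.union_subset ?_ ?_))
    · exact fun x hx => hx.1
    · exact fun x hx => hx.1
  have hone : (1 : Cardinal) < #A := lt_of_lt_of_le one_lt_aleph0 hinf
  have hB : #B < #A := by
    refine lt_of_le_of_lt (mk_insert_le) (add_lt_of_lt hinf ?_ hone)
    refine lt_of_le_of_lt (mk_insert_le) (add_lt_of_lt hinf ?_ hone)
    exact lt_of_le_of_lt (mk_union_le _ _) (add_lt_of_lt hinf hX hY)
  have hBtop : a ⊔ sSup B = a ⊔ sSup A := by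
    apply le_antisymm (sup_le_sup_left (sSup_le_sSup hBA) _)
    refine sup_le le_sup_left (sSup_le fun x hx => le_sup_of_le_right ?_)
    by_cases hxl : x ≤ l
    · refine hxl.trans (sup_le (le_sSup ?_) (le_sSup ?_))
      · exact Set.mem_insert _ _
      · exact Set.mem_insert_of_mem _ (Set.mem_insert _ _)
    · exact le_sSup (Set.mem_insert_of_mem _ (Set.mem_insert_of_mem _ (Or.inr ⟨hx, hxl⟩)))
  obtain ⟨c, hc1, hc2⟩ := hIH B hBA hB hBtop
  obtain ⟨e, he0, he1, he2⟩ := exists_flag hρ hA hal hl hr (m - 1) (by omega)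
  have hae : ∀ i, i < m → a ≤ e i := by
    intro i
    induction i with
    | zero => intro _; rw [he0]
    | succ i ih =>
      intro hi
      obtain ⟨b, -, hb, -⟩ := he2 i (by omega)
      rw [hb]
      exact le_sup_of_le_left (ih (by omega))
  have hoff : ∀ x ∈ A, x ∉ B → x ≤ l := by
    intro x hx hxB
    by_contra h
    exact hxB (Set.mem_insert_of_mem _ (Set.mem_insert_of_mem _ (Or.inr ⟨hx, h⟩)))
  have hcov : ∀ x ∈ A, x ≤ l → ∀ i, i + 1 < m → x ⊔ e i ⋖ x ⊔ e (i + 1) := by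
    intro x hx hxl i hi
    obtain ⟨b, hbA, hb, hbn⟩ := he2 i (by omega)
    rw [hb, ← sup_assoc]
    exact covBy_sup (hA b hbA) (le_sup_of_le_left (hA x hx).le)
      fun h => hbn (h.trans (sup_le_sup_right hxl _))
  have hrk : ∀ x ∈ A, x ≤ l → ∀ i, i < m → ρ (x ⊔ e i) = ρ a + 1 + i := by
    intro x hx hxl i
    induction i with
    | zero =>
      intro _
      rw [he0, sup_eq_left.mpr (hA x hx).le]
      exact hρ.cov (hA x hx)
    | succ i ih =>
      intro hi
      have := hρ.cov (hcov x hx hxl i hi)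
      have := ih (by omega)
      omega
  have hnl : ∀ x ∈ A, x ≤ l → ∀ i, i < m → ¬ l ≤ x ⊔ e i := by
    intro x hx hxl i hi h
    have h1 := hρ.le (sup_le h le_sup_right : l ⊔ e i ≤ x ⊔ e i)
    have h2 := hrk x hx hxl i hi
    have h3 := he1 i (by omega)
    omega
  have hmem : ∀ x ∈ A, ∀ i, i < m → x ⊔ e i ∈ Fl a A := by
    intro x hx i
    induction i with
    | zero =>
      intro _
      rw [he0, sup_eq_left.mpr (hA x hx).le]
      exact mem_Fl_of_mem hx (hA x hx).le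
    | succ i ih =>
      intro hi
      obtain ⟨b, hbA, hb, -⟩ := he2 i (by omega)
      rw [hb, ← sup_assoc]
      exact sup_mem_Fl (ih (by omega)) hbA
  have hnot : ∀ x ∈ A, x ∉ B → ∀ i, i < m → x ⊔ e i ∉ Fl a B := by
    intro x hx hxB i hi hmemB
    have hxl := hoff x hx hxB
    obtain ⟨S, hS, hSe⟩ := hmemB
    have hSY : S ⊆ Y := by
      intro s hs
      refine ⟨hBA (hS hs), fun hsl => ?_⟩
      have hne : x ≠ s := fun h => hxB (h ▸ hS hs)
      refine hnl x hx hxl i hi (hline x hx s (hBA (hS hs)) hne hxl hsl _ le_sup_left ?_)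
      rw [hSe]
      exact le_sup_of_le_right (le_sSup hs)
    apply hxB
    refine Set.mem_insert_of_mem _ (Set.mem_insert_of_mem _ (Or.inl ⟨hx, hxl, x ⊔ e i,
      ⟨S, hSY, hSe⟩, le_sup_left, hnl x hx hxl i hi⟩))
  refine ⟨fun x => if x ∈ B then c x else fun i => x ⊔ e i, fun x hx => ?_, ?_⟩
  · by_cases hxB : x ∈ B
    · simp only [if_pos hxB]
      have := hc1 x hxB
      exact ⟨this.zero, this.cov, fun i hi => Fl_mono hBA (this.mem i hi)⟩
    · simp only [if_neg hxB]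
      refine ⟨?_, hcov x hx (hoff x hx hxB), hmem x hx⟩
      show x ⊔ e 0 = x
      rw [he0, sup_eq_left.mpr (hA x hx).le]
  · intro x hx y hy i hi h
    by_cases hxB : x ∈ B
    · by_cases hyB : y ∈ B
      · simp only [if_pos hxB, if_pos hyB] at h
        exact hc2 x hxB y hyB i hi h
      · simp only [if_pos hxB, if_neg hyB] at h
        exact absurd (h ▸ (hc1 x hxB).mem i hi) (hnot y hy hyB i hi)
    · by_cases hyB : y ∈ B
      · simp only [if_neg hxB, if_pos hyB] at h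
        exact absurd (h ▸ (hc1 y hyB).mem i hi) (hnot x hx hxB i hi)
      · simp only [if_neg hxB, if_neg hyB] at h
        by_contra hne
        exact hnl x hx (hoff x hx hxB) i hi (hline x hx y hy hne (hoff x hx hxB) (hoff y hy hyB) _
          le_sup_left (h ▸ le_sup_left))

/-- the main theorem for spanned sublattices -/
theorem good_all [IsUpperModularLattice L] {ρ : L → ℕ} (hρ : IsRank ρ) {r : ℕ}
    (hρr : ∀ x, ρ x ≤ r) : ∀ (m : ℕ) (κ : Cardinal) (a : L) (A : Set L), #A = κ →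
      (∀ x ∈ A, a ⋖ x) → ρ (a ⊔ sSup A) = ρ a + m + 1 → Good a A m := by
  intro m
  induction m with
  | zero => intro κ a A _ hA _; exact good_of_le_one hA (by omega)
  | succ m ihm =>
    intro κ
    induction κ using WellFoundedLT.induction with
    | ind κ ihκ =>
      intro a A hκ hA hr
      by_cases hm : m = 0
      · exact good_of_le_one hA (by omega)
      rcases lt_or_ge #A ℵ₀ with hfin | hinf
      · exact good_of_finite hρ (lt_aleph0_iff_set_finite.mp hfin) hA (by omega) hr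
      by_cases hone : ∀ p ∈ A, ∀ q ∈ A, #(Con A p) < #A → #(Con A q) < #A → p = q
      · refine good_case_one hρ hA (by omega) hinf (fun p hp => ?_) hone
        refine ihm _ p (Con A p) rfl (covBy_Con hA hp) ?_
        rw [top_Con hp (hA p hp).le]
        have := hρ.cov (hA p hp)
        omega
      · push Not at hone
        obtain ⟨p, hp, q, hq, hp', hq', hpq⟩ := hone
        refine good_case_two hρ hρr hA (by omega) hr hinf (fun B hBA hB hBtop => ?_) hp hq hpq
          hp' hq'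
        exact ihκ #B (hκ ▸ hB) a B rfl (fun x hx => hA x (hBA hx)) (by rw [hBtop]; exact hr)

end Pool.Agent.MP_246c79_co.H75
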